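import Pool.Agent.H73.GWT.Stmts

/-! Row `RDC` of the board `gwt` of helper73 (MP_213ba5_lc). -/

set_option autoImplicit false

open Classical

namespace GWT

section code

variable {ι G V : Type*} [Fintype ι] [Group G] [MulAction G V] (C : Code ι G V)

theorem RDC (h1 : IN1Stmt C) : RDCStmt C := by
  intro x y u hx hy
  have hd : ∀ s : ι, C.T.dist C.o ((C.c s)⁻¹ • C.o) = C.Λ := by
    intro s
    have h := C.ds (C.c s) C.o ((C.c s)⁻¹ • C.o)
    rw [smul_inv_smul] at h
    rw [← h, dcomm]
    exact C.d1 s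
  have hb : ∀ s : ι, RB C s u → Bt C.T C.o ((C.c s)⁻¹ • C.o) (u • C.o) := by
    intro s hs
    unfold Bt
    rw [hd s]
    exact hs
  exact h1.2.1 x y (UNQ C.tree (hb x hx) (hb y hy) (by rw [hd x, hd y]))

end code

end GWT
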